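import Pool.Agent.Worm59.Arc

/-!
# Convex covers for Moser's worm problem: a lower bound

A worm is the image of the unit interval under a `1`-Lipschitz map to the Euclidean plane, a worm
cover is a Lebesgue measurable set which contains each worm up to a proper rigid motion, and
`leastArea` is the infimum of the areas of the convex worm covers.  It is at least `0.237`.

A convex worm cover contains a segment of length `1`, an equilateral triangle of side `1/2` and an
isosceles trapezoid with three sides of about `1/3`, and a branch and bound certificate, which is
checked by the kernel, shows that a convex set which contains such copies has an area of at least
`0.237`.
-/

set_option autoImplicit false

namespace Pool.Agent.Results.MP_708129_co.ConvexCoverLower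

open Pool.Agent.Worm59

/-- The infimum of the areas of the convex worm covers is at least `0.237`. -/
theorem result : ENNReal.ofReal (237 / 1000) ≤ leastArea := leastArea_ge

end Pool.Agent.Results.MP_708129_co.ConvexCoverLower
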