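import Pool.Agent.Worm78.Top
import Pool.Agent.Worm78.Geo

/-!
# A convex worm cover of area at most 0.2556

The cover is the convex quadrilateral `KE` of `Pool.Agent.Worm78.GeoL`, with the vertices
`(0, 0)`, `(1.06894, 0)`, `(0.64563, 0.38489)`, `(0.48455, 0.44339)` (rounded).  The proof is
explained in `Pool/Agent/Worm78/README.txt`.
-/

set_option autoImplicit false

namespace Pool.Agent.Results.MP_708129_co.ConvexCoverUpper

open Pool.Agent.Worm78

theorem result : leastArea ≤ ENNReal.ofReal (2556 / 10000) := by
  refine leastArea_le fun P ord s t0 ht0 h => ?_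
  interval_cases t0
  · exact no_bad_of (by norm_num) root0 P ord s h
  · exact no_bad_of (by norm_num) root1 P ord s h

end Pool.Agent.Results.MP_708129_co.ConvexCoverUpper
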